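import Pool.Agent.SGL.StmtsA

/-!
# Row FLH of squad SGL (MP_41797f_co): the homology condition after a flip
-/

namespace Pool.Agent.SGL.H53

open Pool.Agent.SGE Pool.Agent.SGP Pool.Agent.SGY Pool.Agent.SGD Pool.Agent.SGL

open Classical in
/-- indicator of the ordered pair `a b` with the value `k` -/
noncomputable def ind {V : Type} (k : ZMod 2) (a b p q : V) : ZMod 2 :=
  if p = a ∧ q = b then k else 0

open Classical in
theorem ind_sum {V : Type} [Fintype V] (k : ZMod 2) (a b p : V) :
    ∑ q, ind k a b p q = if p = a then k else 0 := by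
  classical
  unfold ind
  by_cases h : p = a
  · rw [if_pos h]
    have : ∀ q : V, (if p = a ∧ q = b then k else 0) = if q = b then k else 0 := by
      intro q
      by_cases hq : q = b
      · rw [if_pos ⟨h, hq⟩, if_pos hq]
      · rw [if_neg (fun h' => hq h'.2), if_neg hq]
    rw [Finset.sum_congr rfl fun q _ => this q, Finset.sum_ite_eq' Finset.univ b,
      if_pos (Finset.mem_univ b)]
  · rw [if_neg h]
    exact Finset.sum_eq_zero fun q _ => if_neg (fun h' => h h'.1)

theorem ind_swap {V : Type} (k : ZMod 2) (a b p q : V) : ind k a b p q = ind k b a q p := by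
  classical
  unfold ind
  by_cases h : p = a ∧ q = b
  · rw [if_pos h, if_pos h.symm]
  · rw [if_neg h, if_neg (fun h' => h h'.symm)]

theorem ind_pos {V : Type} (k : ZMod 2) (a b : V) : ind k a b a b = k := by
  classical
  exact if_pos ⟨rfl, rfl⟩

theorem ind_neg {V : Type} (k : ZMod 2) {a b p q : V} (h : ¬ (p = a ∧ q = b)) :
    ind k a b p q = 0 := by
  classical
  exact if_neg h

theorem z2 (a : ZMod 2) : a + a = 0 := CharTwo.add_self_eq_zero a

/-- Row FLH. -/
theorem flh : FlhStmt := by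
  classical
  intro V _ E Φ x y u v h f1 f2 huv hE Z Zs Zf Ze
  have g1 : Φ y u x := h.rot _ _ _ f1
  have g2 : Φ u x y := h.rot _ _ _ g1
  have g3 : Φ x v y := h.rot _ _ _ f2
  have g4 : Φ v y x := h.rot _ _ _ g3
  have nxy : x ≠ y := fun e => h.irr y (by have := h.fe _ _ _ f1; rw [e] at this; exact this)
  have nyu : y ≠ u := fun e => h.irr u (by have := h.fe _ _ _ g1; rw [e] at this; exact this)
  have nux : u ≠ x := fun e => h.irr x (by have := h.fe _ _ _ g2; rw [e] at this; exact this)
  have nxv : x ≠ v := fun e => h.irr v (by have := h.fe _ _ _ g3; rw [e] at this; exact this)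
  have nvy : v ≠ y := fun e => h.irr y (by have := h.fe _ _ _ g4; rw [e] at this; exact this)
  obtain ⟨k, hk⟩ : ∃ k, k = Z u v := ⟨_, rfl⟩
  have hk' : Z v u = k := by rw [hk, Zs]
  obtain ⟨Y, hY⟩ : ∃ Y : V → V → ZMod 2, ∀ p q, Y p q = Z p q +
      ((ind k u x p q + ind k x u p q) + (ind k x v p q + ind k v x p q) +
        (ind k u v p q + ind k v u p q)) := ⟨_, fun _ _ => rfl⟩
  have zxy : Z x y = 0 := by
    by_contra hz
    rcases Zf x y hz with h1 | h1
    · exact h1.2 (Or.inl ⟨rfl, rfl⟩)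
    · rcases h1 with h1 | h1
      · exact nux h1.1.symm
      · exact nxv h1.1
  have zyx : Z y x = 0 := by rw [Zs]; exact zxy
  obtain ⟨A, A1, A2⟩ := h.hom Y (by
      intro p q
      rw [hY, hY, Zs p q, ind_swap k u x p q, ind_swap k x u p q, ind_swap k x v p q,
        ind_swap k v x p q, ind_swap k u v p q, ind_swap k v u p q]
      ring) (by
      intro p q hne
      by_contra hn
      have n1 : ¬ (p = u ∧ q = x) := by
        rintro ⟨rfl, rfl⟩
        exact hn (h.fe _ _ _ g2)
      have n2 : ¬ (p = x ∧ q = u) := by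
        rintro ⟨rfl, rfl⟩
        exact hn (h.sym _ _ (h.fe _ _ _ g2))
      have n3 : ¬ (p = x ∧ q = v) := by
        rintro ⟨rfl, rfl⟩
        exact hn (h.fe _ _ _ g3)
      have n4 : ¬ (p = v ∧ q = x) := by
        rintro ⟨rfl, rfl⟩
        exact hn (h.sym _ _ (h.fe _ _ _ g3))
      rw [hY, ind_neg k n1, ind_neg k n2, ind_neg k n3, ind_neg k n4] at hne
      by_cases n5 : p = u ∧ q = v
      · obtain ⟨rfl, rfl⟩ := n5
        rw [ind_pos, ind_neg k (fun h' => huv h'.1), ← hk] at hne
        apply hne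
        have := z2 k
        linear_combination this
      by_cases n6 : p = v ∧ q = u
      · obtain ⟨rfl, rfl⟩ := n6
        rw [ind_pos, ind_neg k (fun h' => huv h'.1.symm), hk'] at hne
        apply hne
        have := z2 k
        linear_combination this
      rw [ind_neg k n5, ind_neg k n6] at hne
      simp only [add_zero] at hne
      rcases Zf p q hne with h1 | h1
      · exact hn h1.1
      · rcases h1 with h1 | h1
        · exact n5 h1
        · exact n6 h1) (by
      intro p
      have : ∑ q, Y p q = ∑ q, Z p q + ((∑ q, ind k u x p q + ∑ q, ind k x u p q) +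
          (∑ q, ind k x v p q + ∑ q, ind k v x p q) +
          (∑ q, ind k u v p q + ∑ q, ind k v u p q)) := by
        simp only [← Finset.sum_add_distrib]
        exact Finset.sum_congr rfl fun q _ => hY p q
      rw [this, Ze, ind_sum, ind_sum, ind_sum, ind_sum, ind_sum, ind_sum]
      have a1 := z2 (if p = u then k else 0)
      have a2 := z2 (if p = x then k else 0)
      have a3 := z2 (if p = v then k else 0)
      linear_combination a1 + a2 + a3)
  obtain ⟨α, hα⟩ : ∃ α, α = A x y := ⟨_, rfl⟩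
  have yxy : A x y = A y x := by
    have h1 := A2 x y
    rw [hY, zxy, ind_neg k (fun h' => nux h'.1.symm), ind_neg k (fun h' => nyu h'.2),
      ind_neg k (fun h' => nvy h'.2.symm), ind_neg k (fun h' => nxv h'.1),
      ind_neg k (fun h' => nux h'.1.symm), ind_neg k (fun h' => nxv h'.1)] at h1
    simp only [add_zero] at h1
    have h2 := z2 (A y x)
    linear_combination -h1 - h2
  have b1 : A y u = α := by rw [hα]; exact (A1 _ _ _ f1).symm
  have b2 : A u x = α := by rw [← b1]; exact (A1 _ _ _ g1).symm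
  have b3 : A y x = α := by rw [hα]; exact yxy.symm
  have b4 : A x v = α := by rw [← b3]; exact (A1 _ _ _ f2).symm
  have b5 : A v y = α := by rw [← b4]; exact (A1 _ _ _ g3).symm
  obtain ⟨B, hB⟩ : ∃ B : V → V → ZMod 2, ∀ p q, B p q = if isE x y p q then 0 else
      if p = u ∧ q = v then α else if p = v ∧ q = u then α + k else
        A p q + ind k u x p q + ind k x v p q := ⟨_, fun _ _ => rfl⟩
  have B0 : ∀ p q, isE x y p q → B p q = 0 := fun p q h1 => by rw [hB, if_pos h1]
  have Bn : ∀ p q, ¬ isE x y p q → ¬ (p = u ∧ q = v) → ¬ (p = v ∧ q = u) →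
      B p q = A p q + ind k u x p q + ind k x v p q := by
    intro p q h1 h2 h3
    rw [hB, if_neg h1, if_neg h2, if_neg h3]
  have iuv : ¬ isE x y u v := by
    rintro (h1 | h1)
    · exact nux h1.1
    · exact nyu h1.1.symm
  have ivu : ¬ isE x y v u := by
    rintro (h1 | h1)
    · exact nxv h1.1.symm
    · exact nvy h1.1
  have Buv : B u v = α := by rw [hB, if_neg iuv, if_pos ⟨rfl, rfl⟩]
  have Bvu : B v u = α + k := by
    rw [hB, if_neg ivu, if_neg (fun h' => huv h'.1.symm), if_pos ⟨rfl, rfl⟩]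
  have Bux : B u x = α + k := by
    rw [Bn u x (by
      rintro (h1 | h1)
      · exact nux h1.1
      · exact nyu h1.1.symm) (fun h' => nxv h'.2) (fun h' => huv h'.1), ind_pos,
      ind_neg k (fun h' => nux h'.1), b2, add_zero]
  have Bxv : B x v = α + k := by
    rw [Bn x v (by
      rintro (h1 | h1)
      · exact nvy h1.2
      · exact nxy h1.1) (fun h' => nux h'.1.symm) (fun h' => nxv h'.1),
      ind_neg k (fun h' => nux h'.1.symm), ind_pos, b4, add_zero]
  have Bvy : B v y = α := by
    rw [Bn v y (by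
      rintro (h1 | h1)
      · exact nxv h1.1.symm
      · exact nvy h1.1) (fun h' => nvy h'.2.symm) (fun h' => nyu h'.2),
      ind_neg k (fun h' => huv h'.1.symm), ind_neg k (fun h' => nxv h'.1.symm), b5, add_zero,
      add_zero]
  have Byu : B y u = α := by
    rw [Bn y u (by
      rintro (h1 | h1)
      · exact nyu h1.2.symm
      · exact nux h1.2) (fun h' => huv h'.2) (fun h' => nvy h'.1.symm),
      ind_neg k (fun h' => nyu h'.1), ind_neg k (fun h' => nxy h'.1.symm), b1, add_zero,
      add_zero]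
  have nvu : ¬ E v u := fun e => hE (h.sym _ _ e)
  refine ⟨B, ?_, ?_⟩
  · intro p q r hf
    rcases hf with (⟨f, e1, e2, e3⟩ | f | f | f) | f | f | f
    · have m1 : ¬ (p = u ∧ q = v) := by
        rintro ⟨rfl, rfl⟩
        exact hE (h.fe _ _ _ f)
      have m2 : ¬ (p = v ∧ q = u) := by
        rintro ⟨rfl, rfl⟩
        exact nvu (h.fe _ _ _ f)
      have f' := h.rot _ _ _ f
      have m3 : ¬ (q = u ∧ r = v) := by
        rintro ⟨rfl, rfl⟩
        exact hE (h.fe _ _ _ f')
      have m4 : ¬ (q = v ∧ r = u) := by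
        rintro ⟨rfl, rfl⟩
        exact nvu (h.fe _ _ _ f')
      have m5 : ¬ (p = u ∧ q = x) := by
        rintro ⟨rfl, rfl⟩
        exact e2 (Or.inl ⟨rfl, h.fn _ _ _ _ f g2⟩)
      have m6 : ¬ (p = x ∧ q = v) := by
        rintro ⟨rfl, rfl⟩
        exact e3 (Or.inr ⟨h.fn _ _ _ _ f g3, rfl⟩)
      have m7 : ¬ (q = u ∧ r = x) := by
        rintro ⟨rfl, rfl⟩
        exact e3 (Or.inl ⟨rfl, h.fn _ _ _ _ f' g2⟩)
      have m8 : ¬ (q = x ∧ r = v) := by
        rintro ⟨rfl, rfl⟩
        exact e1 (Or.inr ⟨h.fn _ _ _ _ f' g3, rfl⟩)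
      rw [Bn p q e1 m1 m2, Bn q r e2 m3 m4, ind_neg k m5, ind_neg k m6, ind_neg k m7,
        ind_neg k m8, A1 _ _ _ f]
    · obtain ⟨rfl, rfl, rfl⟩ := f
      rw [Bvy, Byu]
    · obtain ⟨rfl, rfl, rfl⟩ := f
      rw [Byu, Buv]
    · obtain ⟨rfl, rfl, rfl⟩ := f
      rw [Buv, Bvy]
    · obtain ⟨rfl, rfl, rfl⟩ := f
      rw [Bux, Bxv]
    · obtain ⟨rfl, rfl, rfl⟩ := f
      rw [Bxv, Bvu]
    · obtain ⟨rfl, rfl, rfl⟩ := f
      rw [Bvu, Bux]
  · intro p q
    by_cases c1 : isE x y p q
    · have c2 : isE x y q p := by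
        rcases c1 with c | c
        · exact Or.inr ⟨c.2, c.1⟩
        · exact Or.inl ⟨c.2, c.1⟩
      rw [B0 p q c1, B0 q p c2, add_zero]
      rcases c1 with ⟨rfl, rfl⟩ | ⟨rfl, rfl⟩
      · exact zxy
      · exact zyx
    have c2 : ¬ isE x y q p := by
      intro c
      rcases c with c | c
      · exact c1 (Or.inr ⟨c.2, c.1⟩)
      · exact c1 (Or.inl ⟨c.2, c.1⟩)
    have za := z2 α
    by_cases c3 : p = u ∧ q = v
    · obtain ⟨rfl, rfl⟩ := c3
      rw [Buv, Bvu, ← hk]
      linear_combination -za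
    by_cases c4 : p = v ∧ q = u
    · obtain ⟨rfl, rfl⟩ := c4
      rw [Buv, Bvu, hk']
      linear_combination -za
    have h1 := A2 p q
    rw [hY, ind_neg k c3, ind_neg k c4] at h1
    rw [Bn p q c1 c3 c4, Bn q p c2 (fun c => c4 ⟨c.2, c.1⟩) (fun c => c3 ⟨c.2, c.1⟩),
      ind_swap k u x q p, ind_swap k x v q p]
    have y1 := z2 (ind k u x p q)
    have y2 := z2 (ind k x u p q)
    have y3 := z2 (ind k x v p q)
    have y4 := z2 (ind k v x p q)
    linear_combination h1 - y1 - y2 - y3 - y4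

end Pool.Agent.SGL.H53
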