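import Pool.Agent.SGL.StmtsU

/-!
# Row PSA of squad SGL (MP_41797f_co): signs with the point `a`
-/

namespace Pool.Agent.SGL.H53

open Filter Pool.Agent.SGE Pool.Agent.SGP Pool.Agent.SGY Pool.Agent.SGD Pool.Agent.SGL

theorem height {V : Type} (s : V → ℕ) (y : V → ℝ) (u w : V)
    (h : s u < s w ∨ (s u = s w ∧ y u < y w)) :
    ∀ᶠ B : ℝ in atTop, 0 < (B ^ s w + y w) - (B ^ s u + y u) := by
  rcases h with h | ⟨h1, h2⟩
  · filter_upwards [eventually_ge_atTop (1 : ℝ), eventually_gt_atTop (1 + y u - y w)] with B h1 h2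
    have h3 : B ^ (s u + 1) ≤ B ^ s w := pow_le_pow_right₀ h1 h
    have h4 : (1 : ℝ) ≤ B ^ s u := one_le_pow₀ h1
    have h5 : B ^ (s u + 1) = B ^ s u * B := pow_succ B (s u)
    nlinarith [mul_le_mul_of_nonneg_right h4 (by linarith : (0 : ℝ) ≤ B - 1)]
  · refine Eventually.of_forall fun B => ?_
    rw [h1]
    linarith

/-- Row PSA. -/
theorem psa : PsaStmt := by
  intro V s x y u w h
  filter_upwards [height s y u w h] with B hB
  set hu : ℝ := B ^ s u + y u with hhu
  set hw : ℝ := B ^ s w + y w with hhw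
  filter_upwards [eventually_gt_atTop (x u + (-(hu * (x w - x u))) / (hw - hu))] with W hW
  have h1 : (-(hu * (x w - x u))) / (hw - hu) < W - x u := by linarith
  rw [div_lt_iff₀ hB] at h1
  unfold o
  simp only
  nlinarith

end Pool.Agent.SGL.H53
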